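import Pool.Agent.H67.AT.Targets

/-!
# DWN: from a path of level `l + 1` to a path of level `l`
-/

set_option autoImplicit false

open Finset PowerSeries

namespace Pool.Agent.H3.HAT

open Pool.Agent.H67.AT

theorem dwn (hSTG : T_STG) (hSMG : T_SMG) (hLBG : T_LBG) (hSVL : T_SVL) (hPTO : T_PTO)
    (hGLU : T_GLU) : T_DWN := by
  classical
  intro X E Y _ _ _ _ _ _ G k L m g β w₀ η ζ good f hk hβ hg hw hη hm hζ hf hG l hl N ω hgood
    hpair hpth
  have hV := hSVL X E Y G k L g β η good hβ hG l hl N ω hgood hpair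
  have hO := hPTO X E Y G k L m g β w₀ good f hβ hw hf hG l hl N ω hgood
  have hSM := hSMG _ _ _ _ (pot G k good β f L m w₀ l N ω) β g η m hV hO
  have hLB := hLBG _ _ _ _ (pot G k good β f L m w₀ l N ω) β g η m hV hO
  have h0 : ∀ r, (pot G k good β f L m w₀ l N ω).Ψ 0 r = pth G k good β f L m w₀ (l + 1) N ω := by
    intro r
    unfold Pot.Ψ pth
    refine Finset.sum_congr rfl fun τ _ => ?_
    rw [Finset.prod_range_zero, one_mul, ← Finset.range_eq_Ico]
    rfl
  obtain ⟨r, hA, hCC, hΨ⟩ := hSTG _ _ (stg G k good β l N ω) β g η ζ m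
    (pot G k good β f L m w₀ l N ω).Ψ (fun _ _ => ω 0) hβ.le (by linarith) hη hm hζ hV hSM hLB
    (by rw [h0]; exact hpth)
  rw [h0] at hΨ
  have hends : ∀ j < N, r j 0 = ω j ∧ r j (Fin.last k) = ω (j + 1) := by
    intro j hj
    have h1 : 0 < mu G k l (ω j) (ω (j + 1)) (r j) := (hA j hj).2
    unfold mu at h1
    by_contra hcon
    rw [if_neg hcon] at h1
    exact lt_irrefl _ h1
  obtain ⟨ω', hω0, hωN, hω, hprod⟩ := hGLU X k N ω r hk hends
  have hsplit : ∀ t < N * k, ∃ j < N, ∃ i : Fin k, j * k + i = t := by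
    intro t ht
    refine ⟨t / k, ?_, ⟨t % k, Nat.mod_lt _ (by omega)⟩, ?_⟩
    · exact (Nat.div_lt_iff_lt_mul (by omega)).2 ht
    · show t / k * k + t % k = t
      rw [mul_comm]; exact Nat.div_add_mod t k
  refine ⟨ω', hω0, hωN, ?_, ?_, ?_⟩
  · intro t ht
    obtain ⟨j, hj, i, rfl⟩ := hsplit t ht
    rw [(hω j hj i).1, (hω j hj i).2]
    exact (hA j hj).1.1 i
  · intro t ht t' ht' hne
    obtain ⟨j, hj, i, rfl⟩ := hsplit t ht
    obtain ⟨j', hj', i', rfl⟩ := hsplit t' ht'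
    rw [(hω j hj i).1, (hω j hj i).2, (hω j' hj' i').1, (hω j' hj' i').2]
    refine hCC j hj j' hj' i i' ?_
    intro h
    have h1 : j = j' := congrArg Prod.fst h
    have h2 : i = i' := congrArg Prod.snd h
    exact hne (by rw [h1, h2])
  · refine le_trans (le_of_eq ?_) hΨ
    unfold Pot.Ψ pth
    refine Finset.sum_congr rfl fun τ _ => ?_
    have e1 : Ico (stg G k good β l N ω).N (stg G k good β l N ω).N = ∅ := Finset.Ico_self _
    rw [e1, Finset.prod_empty, mul_one, hprod _ (qq G k good β f τ l)]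
    rfl

end Pool.Agent.H3.HAT
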