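import Pool.Agent.H67.AT.Targets
import Pool.Agent.H67.AT.Ser

/-!
# LBG: the potential of series controls the elementary symmetric sums
-/

set_option autoImplicit false

open Finset PowerSeries

namespace Pool.Agent.H3.HAT

open Pool.Agent.H67.AT

theorem lbg (hLIN : T_LIN) : T_LBG := by
  classical
  intro R Y T _ _ _ S V β g η m hV hO p hp r hA
  obtain ⟨τ, hw, hdg, heps, hB, hC⟩ := hO.low p hp
  have hrt0 : ∀ y, 0 ≤ S.rt p y := fun y =>
    Finset.sum_nonneg fun r' _ => mul_nonneg (hV.nn p hp r')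
      (Finset.sum_nonneg fun i _ => hV.nnC _ _ _)
  -- all terms are nonnegative
  have hnn : ∀ τ', DNn ((∏ j ∈ range p, ∏ i, V.cc τ' (r j) i) * ∏ j ∈ Ico p S.N, V.A τ' j) :=
    fun τ' => DNn.mul (DNn.prod fun j _ => DNn.prod fun i _ => hO.nnc τ' (r j) i)
      (DNn.prod fun j hj => hO.nnA τ' j (Finset.mem_Ico.1 hj).2)
  have hsingle : coeff m ((∏ j ∈ range p, ∏ i, V.cc τ (r j) i) *
      ∏ j ∈ Ico p S.N, V.A τ j).snd ≤ V.Ψ p r := by
    have := Finset.single_le_sum (f := fun τ' => V.w τ' * coeff (V.dg τ')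
      ((∏ j ∈ range p, ∏ i, V.cc τ' (r j) i) * ∏ j ∈ Ico p S.N, V.A τ' j).snd)
      (fun τ' _ => mul_nonneg (hO.w_nn τ') ((hnn τ').2 _)) (Finset.mem_univ τ)
    simpa [hw, hdg, Pot.Ψ] using this
  refine le_trans ?_ hsingle
  -- the comparison of the series
  set c : ℕ ⊕ ℕ × Fin S.K → ℝ := fun o => ld (S.rt p) (S.vec r o) with hc
  have hcB : ∀ j, p < j → j < S.N → 0 ≤ c (Sum.inl j) := fun j _ hj =>
    Finset.sum_nonneg fun y _ => mul_nonneg (hrt0 y) (hV.nnB j hj y)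
  have hcC : ∀ q : ℕ × Fin S.K, 0 ≤ c (Sum.inr q) := fun q =>
    Finset.sum_nonneg fun y _ => mul_nonneg (hrt0 y) (hV.nnC _ _ y)
  have hprod : ∏ o ∈ S.obj p, lin (c o) =
      (∏ j ∈ Ioo p S.N, lin (c (Sum.inl j))) *
        ∏ j ∈ range p, ∏ i : Fin S.K, lin (c (Sum.inr (j, i))) := by
    rw [Stage.obj, Finset.prod_disjSum, Finset.prod_product]
  rw [← hLIN _ (S.obj p) c m, hprod]
  have h1 : DLe (∏ j ∈ range p, ∏ i : Fin S.K, lin (c (Sum.inr (j, i))))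
      (∏ j ∈ range p, ∏ i, V.cc τ (r j) i) := by
    refine DLe.prod (fun j _ => DNn.prod fun i _ => DNn.lin (hcC _)) fun j hj => ?_
    refine DLe.prod (fun i _ => DNn.lin (hcC _)) fun i _ => ?_
    have hj' := Finset.mem_range.1 hj
    exact hC j (by omega) (r j) i (hA j hj').2
  have h2 : DLe (eps * ∏ j ∈ Ioo p S.N, lin (c (Sum.inl j))) (∏ j ∈ Ico p S.N, V.A τ j) := by
    have he : Ico p S.N = insert p (Ioo p S.N) := (Finset.Ioo_insert_left hp).symm
    rw [he, Finset.prod_insert (by simp)]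
    refine DLe.mul DNn.eps ?_ heps ?_
    · exact DNn.prod fun j hj => hO.nnA τ j (Finset.mem_Ioo.1 hj).2
    · refine DLe.prod (fun j hj => DNn.lin (hcB j (Finset.mem_Ioo.1 hj).1
        (Finset.mem_Ioo.1 hj).2)) fun j hj => ?_
      have hj' := Finset.mem_Ioo.1 hj
      exact hB j hj'.2 (by omega)
  have h3 : DLe (eps * ((∏ j ∈ Ioo p S.N, lin (c (Sum.inl j))) *
        ∏ j ∈ range p, ∏ i : Fin S.K, lin (c (Sum.inr (j, i)))))
      ((∏ j ∈ range p, ∏ i, V.cc τ (r j) i) * ∏ j ∈ Ico p S.N, V.A τ j) := by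
    have e : eps * ((∏ j ∈ Ioo p S.N, lin (c (Sum.inl j))) *
        ∏ j ∈ range p, ∏ i : Fin S.K, lin (c (Sum.inr (j, i)))) =
        (∏ j ∈ range p, ∏ i : Fin S.K, lin (c (Sum.inr (j, i)))) *
          (eps * ∏ j ∈ Ioo p S.N, lin (c (Sum.inl j))) := by ring
    rw [e]
    refine DLe.mul (DNn.prod fun j _ => DNn.prod fun i _ => DNn.lin (hcC _)) ?_ h1 h2
    exact DNn.prod fun j hj => hO.nnA τ j (Finset.mem_Ico.1 hj).2
  exact h3.2 m

end Pool.Agent.H3.HAT
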