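import Pool.Agent.H67.AT.Targets
import Pool.Agent.H67.AT.Ser

/-!
# LST: from a path of level `0` to a path of edges
-/

set_option autoImplicit false

open Finset PowerSeries

namespace Pool.Agent.H3.HAT

open Pool.Agent.H67.AT

/-- the cost term of the potential -/
theorem coeff_cost (N : ℕ) (c : ℕ → ℝ) :
    coeff 0 (∏ j ∈ range N, ((1 : DS) + TrivSqZeroExt.inr (PowerSeries.C (c j)))).snd =
      ∑ j ∈ range N, c j := by
  classical
  rw [snd_prod, map_sum]
  refine Finset.sum_congr rfl fun j _ => ?_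
  have h1 : ∀ i, ((1 : DS) + TrivSqZeroExt.inr (PowerSeries.C (c i))).fst = 1 := fun i => by
    simp
  rw [Finset.prod_congr rfl fun i _ => h1 i, Finset.prod_const_one, mul_one]
  simp

theorem lst (hSTG : T_STG) (hSMG : T_SMG) (hLBG : T_LBG) (hSV0 : T_SV0) (hPT0 : T_PT0)
    (hMU0 : T_MU0) : T_LST := by
  classical
  intro X E Y _ _ _ _ _ _ G k L m g β w₀ η ζ good f hβ hg hw hη hm hζ hf hG N ω hgood hpair
    hpth heta
  rcases Nat.eq_zero_or_pos N with rfl | hN
  · refine ⟨[], rfl, ⟨by simp, by simp⟩, by simp, by simp, ?_⟩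
    have : pth G k good β f L m w₀ 0 0 ω = 0 := by
      unfold pth
      refine Finset.sum_eq_zero fun τ _ => ?_
      simp
    rw [this]; simp
  have hV := hSV0 X E Y G k L g β η good hβ hg hG N ω hgood hpair
  have hO := hPT0 X E Y G k L m g β w₀ good f hβ hw hf hG N ω hgood
  have hSM := hSMG _ _ _ _ (pot0 G k good β f L m w₀ N ω) β g η m hV hO
  have hLB := hLBG _ _ _ _ (pot0 G k good β f L m w₀ N ω) β g η m hV hO
  have h0 : ∀ r, (pot0 G k good β f L m w₀ N ω).Ψ 0 r = pth G k good β f L m w₀ 0 N ω := by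
    intro r
    unfold Pot.Ψ pth
    refine Finset.sum_congr rfl fun τ _ => ?_
    rw [Finset.prod_range_zero, one_mul, ← Finset.range_eq_Ico]
    rfl
  have hne : Nonempty E := by
    by_contra hcon
    rw [not_nonempty_iff] at hcon
    have := hV.one 0 hN
    rw [Finset.univ_eq_empty, Finset.sum_empty] at this
    exact zero_ne_one this
  obtain ⟨e₀⟩ := hne
  obtain ⟨r, hA, hCC, hΨ⟩ := hSTG _ _ (stg0 G k good β N ω) β g η ζ m
    (pot0 G k good β f L m w₀ N ω).Ψ (fun _ => e₀) hβ.le (by linarith) hη hm hζ hV hSM hLB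
    (by rw [h0]; exact hpth)
  rw [h0] at hΨ
  have hpos : ∀ j < N, 0 < G.P (ω j) (ω (j + 1)) := by
    intro j hj
    have := hG.pos 0 (Nat.zero_le _) _ _ (hgood j hj)
    simpa using this
  have hr : ∀ j < N, G.src (r j) = ω j ∧ G.tgt (r j) = ω (j + 1) ∧ 0 < G.wt (r j) := fun j hj =>
    (hMU0 X E Y G (ω j) (ω (j + 1)) (hpos j hj)).2.2.1 (r j) (hA j hj).2
  refine ⟨(List.range N).map r, by simp, ⟨?_, ?_⟩, ?_, ?_, ?_⟩
  · intro e he
    obtain ⟨j, hj, rfl⟩ := List.mem_map.1 he
    exact (hr j (List.mem_range.1 hj)).2.2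
  · rw [List.isChain_iff_getElem]
    intro i hi
    simp only [List.length_map, List.length_range] at hi
    simp only [List.getElem_map, List.getElem_range]
    rw [(hr i (by omega)).2.1, (hr (i + 1) hi).1]
  · intro e he
    obtain ⟨N', rfl⟩ : ∃ N', N = N' + 1 := ⟨N - 1, by omega⟩
    rw [List.range_succ_eq_map, List.map_cons, List.head?_cons, Option.mem_some_iff] at he
    rw [← he]
    exact (hr 0 hN).1
  · have e1 : ((List.range N).map r).filterMap G.lt =
        (List.range N).filterMap fun j => if j < N then G.lt (r j) else none := by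
      rw [List.filterMap_map]
      refine List.filterMap_congr fun j hj => ?_
      rw [if_pos (List.mem_range.1 hj)]; rfl
    rw [e1]
    refine List.Nodup.filterMap ?_ List.nodup_range
    intro j j' y hj hj'
    by_contra hjj
    rw [Option.mem_def] at hj hj'
    by_cases h1 : j < N
    · by_cases h2 : j' < N
      · rw [if_pos h1] at hj
        rw [if_pos h2] at hj'
        have h3 := hCC j h1 j' h2 (0 : Fin 1) (0 : Fin 1) (by
          intro h
          exact hjj (congrArg Prod.fst h))
        have h4 : (1 : ℝ) ≤ ld (rhoE G (r j)) (rhoE G (r j')) := by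
          unfold ld
          have := Finset.single_le_sum (f := fun y => rhoE G (r j) y * rhoE G (r j') y)
            (fun y _ => by unfold rhoE; split_ifs <;> norm_num) (Finset.mem_univ y)
          refine le_trans (le_of_eq ?_) this
          simp [rhoE, hj, hj']
        exact absurd (lt_of_le_of_lt (h4.trans h3) heta) (lt_irrefl _)
      · rw [if_neg h2] at hj'; exact absurd hj' (by simp)
    · rw [if_neg h1] at hj; exact absurd hj (by simp)
  · refine le_trans ?_ hΨ
    have hnn : ∀ τ : Idx X L, DNn ((∏ j ∈ range N, ∏ i,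
        (pot0 G k good β f L m w₀ N ω).cc τ (r j) i)) :=
      fun τ => DNn.prod fun j _ => DNn.prod fun i _ => hO.nnc τ (r j) i
    have h5 := Finset.single_le_sum (f := fun τ : Idx X L => wgt w₀ τ * coeff (deg m τ)
      ((∏ j ∈ range N, ∏ i, (pot0 G k good β f L m w₀ N ω).cc τ (r j) i)).snd)
      (fun τ _ => mul_nonneg (hO.w_nn τ) ((hnn τ).2 _)) (Finset.mem_univ none)
    have h6 : (pot0 G k good β f L m w₀ N ω).Ψ N r = ∑ τ : Idx X L, wgt w₀ τ *
        coeff (deg m τ) ((∏ j ∈ range N, ∏ i,
          (pot0 G k good β f L m w₀ N ω).cc τ (r j) i)).snd := by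
      unfold Pot.Ψ
      refine Finset.sum_congr rfl fun τ _ => ?_
      have e1 : Ico N (stg0 G k good β N ω).N = ∅ := Finset.Ico_self _
      rw [e1, Finset.prod_empty, mul_one]
      rfl
    rw [show (pot0 G k good β f L m w₀ N ω).Ψ (stg0 G k good β N ω).N r =
      (pot0 G k good β f L m w₀ N ω).Ψ N r from rfl, h6]
    refine le_trans (le_of_eq ?_) h5
    have h7 : (∏ j ∈ range N, ∏ i, (pot0 G k good β f L m w₀ N ω).cc none (r j) i) =
        ∏ j ∈ range N, ((1 : DS) + TrivSqZeroExt.inr (PowerSeries.C (f (r j)))) := by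
      refine Finset.prod_congr rfl fun j _ => ?_
      exact Fin.prod_univ_one _
    rw [h7]
    change w₀ * _ = w₀ * coeff 0 _
    rw [coeff_cost N fun j => f (r j), List.map_map]
    congr 1

end Pool.Agent.H3.HAT
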