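import Pool.Agent.H67.AT.Targets

/-!
# STG: a stage with an abstract potential
-/

set_option autoImplicit false

open Finset

namespace Pool.Agent.H3.HAT

open Pool.Agent.H67.AT

theorem ld_comm {Y : Type} [Fintype Y] (a b : Y → ℝ) : ld a b = ld b a := by
  unfold ld
  exact Finset.sum_congr rfl fun y _ => mul_comm _ _

theorem ld_nonneg {Y : Type} [Fintype Y] {a b : Y → ℝ} (ha : ∀ y, 0 ≤ a y) (hb : ∀ y, 0 ≤ b y) :
    0 ≤ ld a b := Finset.sum_nonneg fun y _ => mul_nonneg (ha y) (hb y)

theorem ld_le {Y : Type} [Fintype Y] {a a' b : Y → ℝ} {β g : ℝ} (hβ : 0 ≤ β)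
    (h : ∀ y, a y ≤ a' y + β) (hb : ∀ y, 0 ≤ b y) (hg : ∑ y, b y ≤ g) :
    ld a b ≤ ld a' b + β * g := by
  calc ld a b ≤ ∑ y, (a' y + β) * b y :=
        Finset.sum_le_sum fun y _ => mul_le_mul_of_nonneg_right (h y) (hb y)
    _ = ld a' b + β * ∑ y, b y := by
        unfold ld
        rw [Finset.mul_sum, ← Finset.sum_add_distrib]
        exact Finset.sum_congr rfl fun y _ => by ring
    _ ≤ ld a' b + β * g := by
        have := mul_le_mul_of_nonneg_left hg hβ
        linarith

theorem eta1_ge {m : ℕ} {ζ β g η : ℝ} (hβ : 0 ≤ β) (hg : 0 ≤ g) (hη : 0 ≤ η) (hm : 1 ≤ m)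
    (hζ : 0 < ζ) : 0 ≤ eta1 m ζ β g η := by
  unfold eta1
  have : (0 : ℝ) ≤ m := Nat.cast_nonneg _
  positivity

theorem stg (hEXC : T_EXC) (hEVT : T_EVT) : T_STG := by
  classical
  intro R Y _ _ S β g η ζ m Ψ r₀ hβ hg hη hm hζ hV hSM hLB h0
  have hm0 : (0 : ℝ) ≤ m := Nat.cast_nonneg _
  have h1 : 0 ≤ eta1 m ζ β g η := eta1_ge hβ hg hη hm hζ
  have h2 : 0 ≤ eta2 m ζ β g η := eta1_ge hβ hg h1 hm hζ
  -- the invariant
  have key : ∀ p ≤ S.N, ∃ r : ℕ → R, S.Adm p r ∧
      (∀ j < p, ∀ j' < p, ∀ i i', (j, i) ≠ (j', i') →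
        ld (S.ρC (r j) i) (S.ρC (r j') i') ≤ eta2 m ζ β g η) ∧
      (∀ j < p, ∀ j', p ≤ j' → j' < S.N → ∀ i,
        ld (S.ρC (r j) i) (S.ρB j') ≤ eta1 m ζ β g η) ∧
      Ψ p r ≤ Ψ 0 r₀ := by
    intro p
    induction p with
    | zero =>
      intro _
      exact ⟨r₀, fun j hj => absurd hj (Nat.not_lt_zero _), fun j hj => absurd hj (Nat.not_lt_zero _),
        fun j hj => absurd hj (Nat.not_lt_zero _), le_rfl⟩
    | succ p ih =>
      intro hp
      obtain ⟨r, hA, hCC, hCB, hΨ⟩ := ih (by omega)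
      have hpN : p < S.N := by omega
      have hvnn : ∀ o ∈ S.obj p, ∀ y, 0 ≤ S.vec r o y := by
        intro o ho y
        rcases o with j' | ⟨j, i⟩
        · rw [Stage.obj, Finset.inl_mem_disjSum, Finset.mem_Ioo] at ho
          exact hV.nnB j' ho.2 y
        · exact hV.nnC _ _ y
      have hrt0 : ∀ y, 0 ≤ S.rt p y := fun y =>
        Finset.sum_nonneg fun r' _ => mul_nonneg (hV.nn p hpN r')
          (Finset.sum_nonneg fun i _ => hV.nnC _ _ _)
      obtain ⟨T, hTO, hTc, hTs⟩ := hEXC _ (S.obj p) (fun o => ld (S.rt p) (S.vec r o)) m ζ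
        (fun o ho => ld_nonneg hrt0 (hvnn o ho)) hm hζ
        (lt_of_le_of_lt ((hLB p hpN r hA).trans hΨ) h0)
      have hmean : ∀ o : ℕ ⊕ ℕ × Fin S.K, ∑ r' : R, S.μ p r' * (∑ i : Fin S.K, ld (S.ρC r' i) (S.vec r o)) =
          ld (S.rt p) (S.vec r o) := by
        intro o
        have e1 : ld (S.rt p) (S.vec r o) =
            ∑ y, ∑ r', S.μ p r' * ((∑ i, S.ρC r' i y) * S.vec r o y) := by
          unfold ld Stage.rt
          refine Finset.sum_congr rfl fun y _ => ?_
          rw [Finset.sum_mul]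
          exact Finset.sum_congr rfl fun r' _ => mul_assoc _ _ _
        rw [e1, Finset.sum_comm]
        refine Finset.sum_congr rfl fun r' _ => ?_
        rw [← Finset.mul_sum]
        congr 1
        unfold ld
        rw [Finset.sum_comm]
        exact Finset.sum_congr rfl fun y _ => (Finset.sum_mul _ _ _).symm
      have hE := hEVT R _ (S.μ p) S.acc (S.obj p) T
        (fun r' o => ∑ i, ld (S.ρC r' i) (S.vec r o)) m ζ (hV.nn p hpN) (hV.one p hpN)
        (by
          have := hV.fail p hpN
          convert this using 3) 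
        (fun r' o ho => Finset.sum_nonneg fun i _ => ld_nonneg (hV.nnC r' i) (hvnn o ho))
        hm hζ hTO hTc (by
          simp_rw [hmean]
          exact hTs)
      simp_rw [hmean] at hE
      set E : Finset R := univ.filter fun r' => S.acc r' ∧ ∀ o ∈ S.obj p,
        ∑ i, ld (S.ρC r' i) (S.vec r o) ≤ 16 * m * ld (S.rt p) (S.vec r o) + 16 * ζ with hEdef
      have hsm := hSM p hpN r hA E (fun r' hr' => (Finset.mem_filter.1 hr').2.1) hE
      -- there is a good refinement
      obtain ⟨r', hr'E, hr'μ, hr'Ψ⟩ : ∃ r' ∈ E, 0 < S.μ p r' ∧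
          Ψ (p + 1) (Function.update r p r') ≤ Ψ p r := by
        by_contra hcon
        push Not at hcon
        have hpos : ∃ r' ∈ E, 0 < S.μ p r' := by
          by_contra hc
          push Not at hc
          have : ∑ r' ∈ E, S.μ p r' ≤ 0 := Finset.sum_nonpos fun r' hr' => hc r' hr'
          linarith
        have hlt : (∑ r' ∈ E, S.μ p r') * Ψ p r <
            ∑ r' ∈ E, S.μ p r' * Ψ (p + 1) (Function.update r p r') := by
          rw [Finset.sum_mul]
          refine Finset.sum_lt_sum (fun r' hr' => ?_) ?_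
          · rcases (hV.nn p hpN r').lt_or_eq with h | h
            · exact (mul_lt_mul_of_pos_left (hcon r' hr' h) h).le
            · rw [← h]; simp
          · obtain ⟨r', hr', h⟩ := hpos
            exact ⟨r', hr', mul_lt_mul_of_pos_left (hcon r' hr' h) h⟩
        exact absurd hsm (not_le.2 hlt)
      have hacc : S.acc r' := (Finset.mem_filter.1 hr'E).2.1
      have hload := (Finset.mem_filter.1 hr'E).2.2
      have hone : ∀ o ∈ S.obj p, ∀ i, ld (S.ρC r' i) (S.vec r o) ≤
          16 * m * ld (S.rt p) (S.vec r o) + 16 * ζ := fun o ho i =>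
        (Finset.single_le_sum (f := fun i => ld (S.ρC r' i) (S.vec r o))
          (fun i _ => ld_nonneg (hV.nnC r' i) (hvnn o ho)) (Finset.mem_univ i)).trans (hload o ho)
      have hold : ∀ j < p, Function.update r p r' j = r j := fun j hj =>
        Function.update_of_ne (by omega) _ _
      have hnew : Function.update r p r' p = r' := Function.update_self _ _ _
      have hnewB : ∀ j', p < j' → j' < S.N → ∀ i, ld (S.ρC r' i) (S.ρB j') ≤
          eta1 m ζ β g η := by
        intro j' hj' hj'N i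
        have ho : (Sum.inl j' : ℕ ⊕ ℕ × Fin S.K) ∈ S.obj p := by
          rw [Stage.obj, Finset.inl_mem_disjSum, Finset.mem_Ioo]; exact ⟨hj', hj'N⟩
        have hb := hone _ ho i
        have hc : ld (S.rt p) (S.ρB j') ≤ η + β * g :=
          (ld_le hβ (hV.rt_le p hpN) (hV.nnB j' hj'N) (hV.gB j' hj'N)).trans
            (by have := hV.pair p hpN j' hj'N (by omega); linarith)
        have hd : S.vec r (Sum.inl j') = S.ρB j' := rfl
        rw [hd] at hb
        refine hb.trans ?_
        unfold eta1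
        have : 16 * (m : ℝ) * ld (S.rt p) (S.ρB j') ≤ 16 * m * (η + β * g) :=
          mul_le_mul_of_nonneg_left hc (by positivity)
        linarith
      have hnewC : ∀ j < p, ∀ i i', ld (S.ρC r' i) (S.ρC (r j) i') ≤ eta2 m ζ β g η := by
        intro j hj i i'
        have ho : (Sum.inr (j, i') : ℕ ⊕ ℕ × Fin S.K) ∈ S.obj p := by
          rw [Stage.obj, Finset.inr_mem_disjSum, Finset.mem_product]
          exact ⟨Finset.mem_range.2 hj, Finset.mem_univ _⟩
        have hb := hone _ ho i
        have hc : ld (S.rt p) (S.ρC (r j) i') ≤ eta1 m ζ β g η + β * g :=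
          (ld_le hβ (hV.rt_le p hpN) (hV.nnC _ _) (hV.gC _ i' (hA j hj).1)).trans
            (by
              have := hCB j hj p le_rfl hpN i'
              rw [ld_comm] at this
              linarith)
        have hd : S.vec r (Sum.inr (j, i')) = S.ρC (r j) i' := rfl
        rw [hd] at hb
        refine hb.trans ?_
        change _ ≤ 16 * m * (eta1 m ζ β g η + β * g) + 16 * ζ
        have : 16 * (m : ℝ) * ld (S.rt p) (S.ρC (r j) i') ≤
            16 * m * (eta1 m ζ β g η + β * g) :=
          mul_le_mul_of_nonneg_left hc (by positivity)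
        linarith
      refine ⟨Function.update r p r', ?_, ?_, ?_, hr'Ψ.trans hΨ⟩
      · intro j hj
        rcases Nat.lt_succ_iff_lt_or_eq.1 hj with h | h
        · rw [hold j h]; exact hA j h
        · subst h; rw [hnew]; exact ⟨hacc, hr'μ⟩
      · intro j hj j' hj' i i' hne
        rcases Nat.lt_succ_iff_lt_or_eq.1 hj with h | h <;>
          rcases Nat.lt_succ_iff_lt_or_eq.1 hj' with h' | h'
        · rw [hold j h, hold j' h']; exact hCC j h j' h' i i' hne
        · subst h'
          rw [hold j h, hnew, ld_comm]; exact hnewC j h i' i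
        · subst h
          rw [hold j' h', hnew]; exact hnewC j' h' i i'
        · subst h; subst h'
          rw [hnew]
          have hii : i ≠ i' := fun hc => hne (by rw [hc])
          rw [hV.sib r' hacc i i' hii]; exact h2
      · intro j hj j' hj' hj'N i
        rcases Nat.lt_succ_iff_lt_or_eq.1 hj with h | h
        · rw [hold j h]; exact hCB j h j' (by omega) hj'N i
        · subst h
          rw [hnew]; exact hnewB j' (by omega) hj'N i
  obtain ⟨r, hA, hCC, -, hΨ⟩ := key S.N le_rfl
  exact ⟨r, hA, hCC, hΨ⟩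

end Pool.Agent.H3.HAT
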